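import Pool.Agent.K6.H72.HB.Main

/-!
# Besicovitch cylindrical transformations which are `γ`-Hölder for every `γ < 1`

`cyl a φ` is the cylindrical transformation `T_φ (x, y) = (x + a, y + φ x)` of `𝕋 × ℝ`,
`𝕋 = UnitAddCircle = ℝ / ℤ`, as a bijection; `orbit a φ p` is the two-sided orbit of the point `p`;
`IsBesicovitch a φ`: some orbit is dense in `𝕋 × ℝ` and some orbit has no accumulation point in `𝕋 × ℝ`
(`Pool/Agent/V11279/BesT.lean`). The norm of `𝕋` is the distance to `0`.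

Construction. Let `‖n α‖ ≥ c / |n|` for all `n ≠ 0`, let `u_k` be the tent function of height `1` and
width `c / 2 ^ (k + 2)` at `0`, and `V_k (x) = ∑ (2 ^ k - |j|) u_k (x - j α)`, the sum over `|j| ≤ 2 ^ k`.
The supports of the translates of `u_k` in this sum are disjoint, so `B_k (x) = V_k (x) - V_k (x + α)` is
bounded by `1` and Lipschitz with a constant `≤ C 2 ^ k`. Hence `φ = ∑ (k + 1) 2 ^ (-k) B_k` is `γ`-Hölder
for all `γ < 1`. The Birkhoff sums are
`φ^(n) (0) = ∑ (k + 1) 2 ^ (-k) (V_k (0) - V_k (n α)) ≥ k + 1` for `2 ^ k ≤ |n| ≤ 2 ^ (k + 1)`, so the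
orbit of `(0, 0)` is discrete, and the transitivity follows from the intermediate value theorem.
-/

set_option autoImplicit false

open Filter Set Topology

namespace Pool.Agent.Results.MP_f73729_an.HolderBesicovitch

open Pool.Agent.V11279.BesT

/-- `α` is badly approximable: `‖n α‖ ≥ c / |n|` for all integers `n ≠ 0`, with a constant `c > 0`. -/
def BadlyApproximable (α : ℝ) : Prop :=
  ∃ c : ℝ, 0 < c ∧ ∀ n : ℤ, n ≠ 0 → c / |(n : ℝ)| ≤ ‖n • (α : UnitAddCircle)‖

/-- For every badly approximable number `α` (such numbers are irrational) there is a function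
`φ : 𝕋 → ℝ` which is `γ`-Hölder continuous for EVERY `γ < 1` and for which the cylindrical
transformation `T_φ (x, y) = (x + α, y + φ x)` is Besicovitch; in fact the Birkhoff sums `φ^(n) (0)`
tend to `+∞` as `|n| → ∞`. For example, `α = √2` is badly approximable. -/
theorem result : (∀ α : ℝ, BadlyApproximable α → Irrational α ∧ ∃ φ : UnitAddCircle → ℝ,
      (∀ γ : ℝ, 0 < γ → γ < 1 → ∃ C : ℝ, ∀ x x' : UnitAddCircle, |φ x - φ x'| ≤ C * ‖x - x'‖ ^ γ) ∧
      IsBesicovitch (α : UnitAddCircle) φ ∧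
      Tendsto (fun n : ℤ => (((cyl (α : UnitAddCircle) φ) ^ n) (0, 0)).2) cofinite atTop) ∧
    BadlyApproximable (Real.sqrt 2) := by
  refine ⟨fun α hα => ?_, 1 / 4, by norm_num, Pool.Agent.K6.H72.HB.bad_sqrt_two⟩
  obtain ⟨c, hc, ha⟩ := hα
  obtain ⟨h1, h2⟩ := Pool.Agent.K6.H72.HB.isBesicovitch hc ha
  refine ⟨h1, Pool.Agent.K6.H72.HB.ph (α : UnitAddCircle) c, fun γ hγ0 hγ1 => ?_, h2,
    Pool.Agent.K6.H72.HB.tendsto_S hc ha⟩
  obtain ⟨C, _, hC⟩ := Pool.Agent.K6.H72.HB.holder hc ha hγ0 hγ1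
  exact ⟨C, hC⟩

end Pool.Agent.Results.MP_f73729_an.HolderBesicovitch
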